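import Pool.Agent.KS6_21.W.Ex

/-!
# MP_5f8094_an : toric differential inclusions and endotactic systems

Write `x ^ u = ∏ i, x i ^ u i`. For a finite set `U` of vectors and a constant `C` the toric
differential inclusion asks that the velocity at `x` is a combination with nonnegative
coefficients of those `u ∈ U` for which `x ^ u ≤ C`. No kinetics is prescribed: a direction `u`
may be used in an arbitrary way as long as `x ^ u ≤ C`, and must not be used when `x ^ u > C`.

The result treats these inclusions (invariant regions; permanence under a drift condition; global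
solutions for Lipschitz fields) and the variable-`k` systems of weakly reversible, or more
generally endotactic, graphs (uniform permanence).
-/

set_option autoImplicit false

namespace Pool.Agent.Results.MP_5f8094_an.ToricInclusions

/-- `v` is a combination `∑ u ∈ U, a u • u` with coefficients `a u ≥ 0` such that `a u = 0` if
`x ^ u > C`, and `a u ≥ κ x` if `C * x ^ u < 1`. (For `κ = 0` the last condition is void: `v` is in
the cone generated by the `u ∈ U` with `x ^ u ≤ C`.) -/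
def Allowed {n : ℕ} (U : Finset (Fin n → ℝ)) (C : ℝ) (κ : (Fin n → ℝ) → ℝ)
    (x v : Fin n → ℝ) : Prop :=
  ∃ a : (Fin n → ℝ) → ℝ, (∀ u ∈ U, 0 ≤ a u ∧ (C < ∏ i, x i ^ u i → a u = 0) ∧
    (C * ∏ i, x i ^ u i < 1 → κ x ≤ a u)) ∧ v = ∑ u ∈ U, a u • u

/-- `x` is a solution on `J` of the inclusion `x' ∈ {v | Allowed U C κ x v}`: positive, absolutely
continuous on the compact subintervals, and satisfying the inclusion at almost every time of
`J`. -/
structure IsToricSolution {n : ℕ} (U : Finset (Fin n → ℝ)) (C : ℝ) (κ : (Fin n → ℝ) → ℝ)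
    (x : ℝ → Fin n → ℝ) (J : Set ℝ) : Prop where
  pos : ∀ t ∈ J, ∀ i, 0 < x t i
  ac : ∀ a ∈ J, ∀ b ∈ J, a ≤ b → AbsolutelyContinuousOnInterval x a b
  incl : ∀ᵐ t, t ∈ J → ∃ v, HasDerivAt x v t ∧ Allowed U C κ (x t) v

/-- `x` is a positive solution on `J` of the nonautonomous equation `x' = G (t, x)`. -/
structure Solves {n : ℕ} (G : ℝ → (Fin n → ℝ) → (Fin n → ℝ)) (x : ℝ → Fin n → ℝ)
    (J : Set ℝ) : Prop where
  pos : ∀ t ∈ J, ∀ i, 0 < x t i
  ac : ∀ a ∈ J, ∀ b ∈ J, a ≤ b → AbsolutelyContinuousOnInterval x a b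
  ode : ∀ᵐ t, t ∈ J → HasDerivAt x (G t (x t)) t

/-- The right-hand side of the system generated by the edge set `E` (an edge is a pair
(source, target) of real vectors) with the rates `k`, at the point `x`. -/
noncomputable def field {n : ℕ} (E : Finset ((Fin n → ℝ) × (Fin n → ℝ)))
    (k : (Fin n → ℝ) × (Fin n → ℝ) → ℝ) (x : Fin n → ℝ) : Fin n → ℝ :=
  ∑ e ∈ E, (k e * ∏ i, x i ^ (e.1 i)) • (e.2 - e.1)

/-- Every edge of `E` lies on a directed cycle: its source can be reached from its target. -/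
def WeaklyReversible {n : ℕ} (E : Finset ((Fin n → ℝ) × (Fin n → ℝ))) : Prop :=
  ∀ e ∈ E, Relation.ReflTransGen (fun u v => (u, v) ∈ E) e.2 e.1

/-- For every `w` and every edge `s → s'` with `w ⬝ (s' - s) < 0` there is an edge `t → t'` with
`w ⬝ (t' - t) > 0` and `w ⬝ t < w ⬝ s`. -/
def Endotactic {n : ℕ} (E : Finset ((Fin n → ℝ) × (Fin n → ℝ))) : Prop :=
  ∀ w : Fin n → ℝ, ∀ e ∈ E, ∑ j, w j * (e.2 j - e.1 j) < 0 →
    ∃ e' ∈ E, 0 < ∑ j, w j * (e'.2 j - e'.1 j) ∧ ∑ j, w j * e'.1 j < ∑ j, w j * e.1 j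

/-- The rates take values in `[ε, 1/ε]` on the edges. Measurability is not part of this (so the
rates may also depend on the state). -/
def Rates {n : ℕ} (E : Finset ((Fin n → ℝ) × (Fin n → ℝ))) (ε : ℝ)
    (k : (Fin n → ℝ) × (Fin n → ℝ) → ℝ → ℝ) : Prop :=
  ∀ e ∈ E, ∀ t : ℝ, ε ≤ k e t ∧ k e t ≤ 1 / ε

/-- `x` is a solution on `J` of the variable-`k` system generated by `E` with the rates `k`. -/
def IsSolution {n : ℕ} (E : Finset ((Fin n → ℝ) × (Fin n → ℝ)))
    (k : (Fin n → ℝ) × (Fin n → ℝ) → ℝ → ℝ) (x : ℝ → Fin n → ℝ) (J : Set ℝ) : Prop :=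
  Solves (fun t z => field E (fun e => k e t) z) x J

/-- The class `S_{x₀}`: the positive vectors `z` with `z - x₀` in the span of the edge vectors. -/
def compatClass {n : ℕ} (E : Finset ((Fin n → ℝ) × (Fin n → ℝ))) (x₀ : Fin n → ℝ) :
    Set (Fin n → ℝ) :=
  {z | (∀ i, 0 < z i) ∧ z - x₀ ∈ Submodule.span ℝ {v | ∃ e ∈ E, v = e.2 - e.1}}

/-- **Toric differential inclusions.** Let `U` be a finite set of vectors of `ℝⁿ` and `C` a
constant.
(1) Every compact set `C₀` of positive vectors lies in a compact convex set `K` of positive vectors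
which no solution of the toric differential inclusion of `U` and `C` leaves in forward time.
(2) Suppose that `0` is a combination of the `u ∈ U` with positive coefficients, and let `κ` be
positive and continuous on the positive vectors. For every compact set `Q` of positive vectors
contained in `C₀ + span U` there is one time `τ` for which every solution of the inclusion with the
drift condition `a u ≥ κ x` if `C * x ^ u < 1`, on any interval, that is in `Q` at some time `s` is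
in `K` at all times `t ≥ s + τ` of its interval. (`K` does not depend on `κ`.)
(3) If the field `G (t, x)` has its values in the inclusion, is measurable in `t` and is Lipschitz
and bounded, uniformly in `t`, on every box `[m, N]ⁿ`, `m > 0`, then every positive vector is the
value at `0` of a solution of `x' = G (t, x)` on `[0, ∞)`, which is unique on every subinterval
containing `0`.

**Endotactic systems.** Let `E` be a finite edge set which is weakly reversible or, more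
generally, endotactic, and `ε > 0`.
(4) For every compact set `C₀` of positive vectors there is a compact convex set `K ⊇ C₀` of
positive vectors which meets every class of a point of `C₀` in a compact set, which no solution
(for any rates with values in `[ε, 1/ε]`, on any interval) leaves in forward time, and such that
for every compact set `Q` contained in the union of the classes of the points of `C₀` there is one
time `τ` for which every solution (same generality) that is in `Q` at some time `s` is in `K` at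
all times `t ≥ s + τ` of its interval.
(5) Solutions stay in their class.
(6) For measurable rates with values in `[ε, 1/ε]` every positive vector is the value at `0` of a
solution on `[0, ∞)`, and every solution on an interval containing `0` has exactly one extension
to a solution on the union of the interval with `[0, ∞)`. -/
theorem result (n : ℕ) :
    (∀ (U : Finset (Fin n → ℝ)) (C : ℝ),
      (∀ C₀ : Set (Fin n → ℝ), IsCompact C₀ → (∀ x ∈ C₀, ∀ i, 0 < x i) →
        ∃ K : Set (Fin n → ℝ), IsCompact K ∧ Convex ℝ K ∧ (∀ x ∈ K, ∀ i, 0 < x i) ∧ C₀ ⊆ K ∧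
          (∀ (J : Set ℝ) (x : ℝ → Fin n → ℝ), J.OrdConnected →
            IsToricSolution U C (fun _ => 0) x J →
            ∀ s ∈ J, x s ∈ K → ∀ t ∈ J, s ≤ t → x t ∈ K) ∧
          ((∃ c : (Fin n → ℝ) → ℝ, (∀ u ∈ U, 0 < c u) ∧ ∑ u ∈ U, c u • u = 0) →
            ∀ κ : (Fin n → ℝ) → ℝ, ContinuousOn κ {x | ∀ i, 0 < x i} →
            (∀ x : Fin n → ℝ, (∀ i, 0 < x i) → 0 < κ x) →
            ∀ Q : Set (Fin n → ℝ), IsCompact Q → (∀ z ∈ Q, (∀ i, 0 < z i) ∧
              ∃ x₀ ∈ C₀, z - x₀ ∈ Submodule.span ℝ (U : Set (Fin n → ℝ))) →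
            ∃ τ : ℝ, 0 < τ ∧ ∀ (J : Set ℝ) (x : ℝ → Fin n → ℝ), J.OrdConnected →
              IsToricSolution U C κ x J → ∀ s ∈ J, x s ∈ Q → ∀ t ∈ J, s + τ ≤ t → x t ∈ K)) ∧
      (∀ G : ℝ → (Fin n → ℝ) → (Fin n → ℝ),
        (∀ x : Fin n → ℝ, (∀ i, 0 < x i) → Measurable fun t => G t x) →
        (∀ m N : ℝ, 0 < m → ∃ L : NNReal, ∀ t, LipschitzOnWith L (G t)
          (Set.Icc (fun _ => m) (fun _ => N)) ∧
          ∀ x ∈ Set.Icc (fun _ : Fin n => m) (fun _ => N), ‖G t x‖ ≤ L) →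
        (∀ t x, (∀ i, 0 < x i) → Allowed U C (fun _ => 0) x (G t x)) →
        ∀ z : Fin n → ℝ, (∀ i, 0 < z i) →
        ∃ y : ℝ → Fin n → ℝ, y 0 = z ∧ Solves G y (Set.Ici 0) ∧
          ∀ (J : Set ℝ) (x : ℝ → Fin n → ℝ), J.OrdConnected → (0 : ℝ) ∈ J → J ⊆ Set.Ici 0 →
            Solves G x J → x 0 = z → ∀ t ∈ J, y t = x t)) ∧
    (∀ E : Finset ((Fin n → ℝ) × (Fin n → ℝ)), WeaklyReversible E ∨ Endotactic E →
      ∀ ε : ℝ, 0 < ε →
      (∀ C₀ : Set (Fin n → ℝ), IsCompact C₀ → (∀ x ∈ C₀, ∀ i, 0 < x i) →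
        ∃ K : Set (Fin n → ℝ), IsCompact K ∧ Convex ℝ K ∧ (∀ x ∈ K, ∀ i, 0 < x i) ∧ C₀ ⊆ K ∧
          (∀ x₀ ∈ C₀, IsCompact (K ∩ compatClass E x₀)) ∧
          (∀ k : (Fin n → ℝ) × (Fin n → ℝ) → ℝ → ℝ, Rates E ε k →
            ∀ (J : Set ℝ) (x : ℝ → Fin n → ℝ), J.OrdConnected → IsSolution E k x J →
            ∀ s ∈ J, x s ∈ K → ∀ t ∈ J, s ≤ t → x t ∈ K) ∧
          ∀ Q : Set (Fin n → ℝ), IsCompact Q → (∀ z ∈ Q, ∃ x₀ ∈ C₀, z ∈ compatClass E x₀) →
            ∃ τ : ℝ, 0 < τ ∧ ∀ k : (Fin n → ℝ) × (Fin n → ℝ) → ℝ → ℝ, Rates E ε k →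
              ∀ (J : Set ℝ) (x : ℝ → Fin n → ℝ), J.OrdConnected → IsSolution E k x J →
              ∀ s ∈ J, x s ∈ Q → ∀ t ∈ J, s + τ ≤ t → x t ∈ K) ∧
      (∀ (x₀ : Fin n → ℝ) (k : (Fin n → ℝ) × (Fin n → ℝ) → ℝ → ℝ) (J : Set ℝ)
        (x : ℝ → Fin n → ℝ), J.OrdConnected → IsSolution E k x J →
        ∀ s ∈ J, x s ∈ compatClass E x₀ → ∀ t ∈ J, s ≤ t → x t ∈ compatClass E x₀) ∧
      (∀ k : (Fin n → ℝ) × (Fin n → ℝ) → ℝ → ℝ, (∀ e ∈ E, Measurable (k e)) → Rates E ε k →
        (∀ z : Fin n → ℝ, (∀ i, 0 < z i) → ∃ y : ℝ → Fin n → ℝ,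
          y 0 = z ∧ IsSolution E k y (Set.Ici 0)) ∧
        ∀ (J : Set ℝ) (x : ℝ → Fin n → ℝ), J.OrdConnected → (0 : ℝ) ∈ J → IsSolution E k x J →
          ∃ y : ℝ → Fin n → ℝ, IsSolution E k y (J ∪ Set.Ici 0) ∧ (∀ t ∈ J, y t = x t) ∧
            ∀ y' : ℝ → Fin n → ℝ, IsSolution E k y' (J ∪ Set.Ici 0) → (∀ t ∈ J, y' t = x t) →
              ∀ t ∈ J ∪ Set.Ici 0, y' t = y t)) := by
  refine ⟨fun U C => ⟨fun C₀ hC₀ hp => ?_, fun G h1 h2 h3 z hz => ?_⟩, fun E hE ε hε => ?_⟩
  · have fwd : ∀ (κ : (Fin n → ℝ) → ℝ) (x : ℝ → Fin n → ℝ) (J : Set ℝ),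
        IsToricSolution U C κ x J → KS6_21.W.IsCurve (KS6_21.W.Tor U C κ) x J :=
      fun κ x J h => ⟨h.pos, h.ac, h.incl⟩
    obtain ⟨K, k1, k2, k3, k4, k5, k6⟩ := KS6_21.W.toric U C C₀ hC₀ hp
    refine ⟨K, k1, k2, k3, k4, fun J x hJ hx => k5 J x hJ (fwd _ _ _ hx), ?_⟩
    intro hc κ hκ hκ0 Q hQ hQC
    obtain ⟨τ, hτ, H⟩ := k6 hc κ hκ hκ0 Q hQ hQC
    exact ⟨τ, hτ, fun J x hJ hx => H J x hJ (fwd _ _ _ hx)⟩
  · obtain ⟨y, hy0, hy, hu⟩ := KS6_21.W.toric_wellposed U C G h1 h2 h3 z hz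
    exact ⟨y, hy0, ⟨hy.pos, hy.ac, hy.ode⟩,
      fun J x hJ h0 hJ0 hx hx0 => hu J x hJ h0 hJ0 ⟨hx.pos, hx.ac, hx.ode⟩ hx0⟩
  have hP : TH310.Endo.EndoP E := by
    rcases hE with h | h
    · exact TH310.Endo.EndoP_of_wr E h
    · exact TH310.Endo.EndoP_of E h
  obtain ⟨T, c, M, R0, D⟩ := TH310.Endo.field_endo W712.WR.main' E hP ε hε
  have fwd : ∀ (k : (Fin n → ℝ) × (Fin n → ℝ) → ℝ → ℝ) (x : ℝ → Fin n → ℝ) (J : Set ℝ),
      IsSolution E k x J → W712.WR.IsSol E k x J := fun k x J h => ⟨h.pos, h.ac, h.ode⟩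
  have back : ∀ (k : (Fin n → ℝ) × (Fin n → ℝ) → ℝ → ℝ) (x : ℝ → Fin n → ℝ) (J : Set ℝ),
      W712.WR.IsSol E k x J → IsSolution E k x J := fun k x J h => ⟨h.pos, h.ac, h.ode⟩
  refine ⟨fun C₀ hC₀ hp => ?_, ?_, ?_⟩
  · obtain ⟨K, h1, h2, h3, h4, h5, h6, h7⟩ := KS6_21.W.unifD D C₀ hC₀ hp
    refine ⟨K, h1, h2, h3, h4, h5, ?_, ?_⟩
    · intro k hk J x hJ hx
      exact h6 k hk J x hJ (fwd _ _ _ hx)
    · intro C hC hCC
      obtain ⟨τ, hτ, H⟩ := h7 C hC hCC
      exact ⟨τ, hτ, fun k hk J x hJ hx => H k hk J x hJ (fwd _ _ _ hx)⟩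
  · intro x₀ k J x hJ hx s hs hxs t ht hst
    exact Y614.WR.Unif.in_cls' x₀ k J hJ x (fwd _ _ _ hx) hs ht hst hxs
  · intro k hm hk
    refine ⟨?_, ?_⟩
    · intro z hz
      obtain ⟨y, hy0, hy, _⟩ := W287.WR.Perman.exists_sol W712.WR.noExitAC'
        W712.WR.cara' W712.WR.uniq' hε D k hm hk z hz
      exact ⟨y, hy0, back _ _ _ hy⟩
    · intro J x hJ h0 hx
      have hx' := fwd _ _ _ hx
      obtain ⟨y, hy0, hy, hu⟩ := W287.WR.Perman.exists_sol W712.WR.noExitAC'
        W712.WR.cara' W712.WR.uniq' hε D k hm hk (x 0) (hx.pos 0 h0)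
      -- the forward part
      have hfor : W712.WR.IsSol E k x (J ∩ Set.Ici 0) := by
        refine ⟨fun t ht => hx'.pos t ht.1, fun a ha b hb hab => hx'.ac a ha.1 b hb.1 hab, ?_⟩
        filter_upwards [hx'.ode] with t ht htJ
        exact ht htJ.1
      have hyx : ∀ t ∈ J ∩ Set.Ici 0, y t = x t :=
        hu (J ∩ Set.Ici 0) x (hJ.inter Set.ordConnected_Ici) ⟨h0, Set.mem_Ici.2 le_rfl⟩
          Set.inter_subset_right hfor rfl
      refine ⟨fun t => if t < 0 then x t else y t,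
        back _ _ _ (W712.WR.sol_glue hJ h0 hx' hy hy0.symm), ?_, ?_⟩
      · intro t ht
        by_cases htn : t < 0
        · simp [htn]
        · simp only [htn, if_false]
          exact hyx t ⟨ht, not_lt.1 htn⟩
      · intro y' hy' hy'x t ht
        have hy'' := fwd _ _ _ hy'
        have hIci : W712.WR.IsSol E k y' (Set.Ici 0) := by
          refine ⟨fun t ht => hy''.pos t (Or.inr ht),
            fun a ha b hb hab => hy''.ac a (Or.inr ha) b (Or.inr hb) hab, ?_⟩
          filter_upwards [hy''.ode] with t ht htJ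
          exact ht (Or.inr htJ)
        by_cases htn : t < 0
        · have htJ : t ∈ J := ht.resolve_right (not_le.2 htn)
          simp only [htn, if_true]
          exact hy'x t htJ
        · simp only [htn, if_false]
          exact (hu (Set.Ici 0) y' Set.ordConnected_Ici (Set.mem_Ici.2 le_rfl) subset_rfl hIci
            (hy'x 0 h0) t (not_lt.1 htn)).symm

end Pool.Agent.Results.MP_5f8094_an.ToricInclusions
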